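import Pool.Agent.Lib.Poly.Lib
import Pool.Agent.Work.MP_807b32_lc.TS.Defs

/-!
The hard function is decided in polynomial time: the extended Euclidean algorithm on bit lists.
-/

namespace Pool.Agent.Work.MP_807b32_lc.InP

open Polynomial Pool.Agent.Lib.Poly Pool.Agent.Work.MP_807b32_lc.TS

/-- A bit as a polynomial. -/
noncomputable def bit (b : Bool) : (ZMod 2)[X] := if b = true then 1 else 0

/-- The polynomial of a list, leading coefficient first. -/
noncomputable def bv : List Bool → (ZMod 2)[X]
  | [] => 0
  | b :: l => bit b * X ^ l.length + bv l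

/-- The polynomial of a list, constant coefficient first. -/
noncomputable def lv : List Bool → (ZMod 2)[X]
  | [] => 0
  | b :: l => bit b + X * lv l

theorem two_eq : (1 + 1 : (ZMod 2)[X]) = 0 := by
  have h : (1 + 1 : ZMod 2) = 0 := by decide
  have := congrArg (C : ZMod 2 →+* (ZMod 2)[X]) h
  simpa using this

theorem bit_xor (a b : Bool) : bit (a ^^ b) = bit a + bit b := by
  cases a <;> cases b <;> simp [bit, two_eq]

@[simp] theorem bit_false : bit false = 0 := by simp [bit]

@[simp] theorem bit_true : bit true = 1 := by simp [bit]

/-- Bitwise sum of `A` and `B`, the list `B` padded on the right by `k` zeros. -/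
def pz (A B : List Bool) (k : ℕ) : List Bool :=
  (A.zip (B ++ List.replicate k false)).map fun p => p.1 ^^ p.2

theorem pz_cons (a b : Bool) (A B : List Bool) (k : ℕ) :
    pz (a :: A) (b :: B) k = (a ^^ b) :: pz A B k := by simp [pz]

theorem pz_nil (A : List Bool) (k : ℕ) (h : A.length ≤ k) : pz A [] k = A := by
  induction A generalizing k with
  | nil => simp [pz]
  | cons a A ih =>
    obtain ⟨k, rfl⟩ : ∃ k', k = k' + 1 := ⟨k - 1, by simp at h; omega⟩
    have := ih k (by simp at h; omega)
    simp only [pz, List.nil_append, List.replicate_succ, List.zip_cons_cons, List.map_cons,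
      Bool.xor_false] at this ⊢
    rw [this]

theorem pz_length (A B : List Bool) (k : ℕ) (h : A.length ≤ k) :
    (pz A B k).length = A.length := by
  simp [pz]; omega

theorem bv_pz (A B : List Bool) (k : ℕ) (h : B.length ≤ A.length) (hk : A.length ≤ k) :
    bv (pz A B k) = bv A + X ^ (A.length - B.length) * bv B := by
  induction A generalizing B with
  | nil =>
    obtain rfl : B = [] := by simpa using h
    simp [pz, bv]
  | cons a A ih =>
    cases B with
    | nil => rw [pz_nil _ _ hk]; simp [bv]
    | cons b B =>
      simp only [List.length_cons] at h hk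
      rw [pz_cons, bv, ih B (by omega) (by omega), pz_length _ _ _ (by omega), bit_xor]
      simp only [bv, List.length_cons, Nat.add_sub_add_right]
      have : (X : (ZMod 2)[X]) ^ A.length = X ^ (A.length - B.length) * X ^ B.length := by
        rw [← pow_add]; congr 1; omega
      rw [mul_add, this]; ring

theorem lv_pad (A : List Bool) (k : ℕ) : lv (A ++ List.replicate k false) = lv A := by
  induction A with
  | nil =>
    induction k with
    | zero => rfl
    | succ k ih => simp only [List.nil_append] at ih ⊢; simp [List.replicate_succ, lv, ih]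
  | cons a A ih => simp [lv, ih]

theorem lv_shift (A : List Bool) (k : ℕ) : lv (List.replicate k false ++ A) = X ^ k * lv A := by
  induction k with
  | zero => simp
  | succ k ih => simp only [List.replicate_succ, List.cons_append, lv, ih, bit_false]; ring

theorem lv_pz (A B : List Bool) (k : ℕ) (h : B.length ≤ A.length) (hk : A.length ≤ k) :
    lv (pz A B k) = lv A + lv B := by
  induction A generalizing B with
  | nil =>
    obtain rfl : B = [] := by simpa using h
    simp [pz, lv]
  | cons a A ih =>
    cases B with
    | nil => rw [pz_nil _ _ hk]; simp [lv]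
    | cons b B =>
      simp only [List.length_cons] at h hk
      rw [pz_cons, lv, ih B (by omega) (by omega), bit_xor]
      simp only [lv]; ring

/-- `U + X ^ d * V` on lists with the constant coefficient first. -/
def ad (U V : List Bool) (d : ℕ) : List Bool :=
  pz (U ++ List.replicate (d + V.length - U.length) false) (List.replicate d false ++ V)
    (U.length + d + V.length)

theorem ad_length (U V : List Bool) (d : ℕ) :
    (ad U V d).length = max U.length (d + V.length) := by
  rw [ad, pz_length _ _ _ (by simp; omega)]; simp; omega

theorem lv_ad (U V : List Bool) (d : ℕ) : lv (ad U V d) = lv U + X ^ d * lv V := by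
  rw [ad, lv_pz _ _ _ (by simp; omega) (by simp; omega), lv_pad, lv_shift]

theorem bv_snoc (l : List Bool) (b : Bool) : bv (l ++ [b]) = X * bv l + bit b := by
  induction l with
  | nil => simp [bv]
  | cons a l ih => simp only [List.cons_append, bv, ih, List.length_append, List.length_singleton]; ring

theorem bv_reverse (l : List Bool) : bv l.reverse = lv l := by
  induction l with
  | nil => rfl
  | cons a l ih => rw [List.reverse_cons, bv_snoc, ih, lv]; ring

theorem degree_bv (l : List Bool) : (bv l).degree < l.length := by
  induction l with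
  | nil => simp [bv]
  | cons a l ih =>
    rw [bv]
    refine (degree_add_le _ _).trans_lt (max_lt ?_ (ih.trans ?_))
    · cases a
      · simp
      · simp only [bit_true, one_mul, degree_X_pow, List.length_cons]
        exact_mod_cast Nat.lt_succ_self _
    · simp only [List.length_cons]
      exact_mod_cast Nat.lt_succ_self _

theorem degree_bv_true (l : List Bool) : (bv (true :: l)).degree = l.length := by
  rw [bv, bit_true, one_mul, degree_add_eq_left_of_degree_lt, degree_X_pow]
  rw [degree_X_pow]; exact degree_bv l

theorem poly_getD (n : ℕ) (V : List Bool) (h : V.length ≤ n) :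
    poly (fun i : Fin n => V.getD i false) = lv V := by
  induction n generalizing V with
  | zero =>
    obtain rfl : V = [] := by simpa using h
    simp [poly, lv]
  | succ n ih =>
    cases V with
    | nil => simp [poly, lv]
    | cons a V =>
      have := ih V (by simpa using h)
      rw [lv, ← this]
      simp only [poly, Fin.sum_univ_succ, Fin.val_zero, List.getD_cons_zero, pow_zero, Fin.val_succ,
        List.getD_cons_succ, Finset.mul_sum, bit]
      congr 1
      refine Finset.sum_congr rfl fun i _ => ?_
      split_ifs
      · rw [pow_succ']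
      · simp

theorem coeff_poly {n : ℕ} (a : Fin n → Bool) (i : Fin n) :
    (poly a).coeff i = if a i = true then 1 else 0 := by
  rw [poly, finsetSum_coeff, Finset.sum_eq_single i]
  · split_ifs <;> simp
  · intro j _ hj
    split_ifs
    · rw [coeff_X_pow, if_neg fun e => hj (Fin.ext e.symm)]
    · simp
  · simp

theorem poly_inj {n : ℕ} {a b : Fin n → Bool} (h : poly a = poly b) : a = b := by
  funext i
  have h1 := coeff_poly a i
  rw [h, coeff_poly] at h1
  cases ha : a i <;> cases hb : b i <;> simp_all

theorem degree_poly {n : ℕ} (a : Fin n → Bool) : (poly a).degree < n := by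
  rw [poly]
  refine (degree_sum_le _ _).trans_lt ?_
  rw [Finset.sup_lt_iff (by exact_mod_cast WithBot.bot_lt_coe n)]
  intro i _
  split_ifs
  · rw [degree_X_pow]; exact_mod_cast i.2
  · exact_mod_cast WithBot.bot_lt_coe n

/-- The state: two remainders and their cofactors. -/
abbrev St := List Bool × List Bool × List Bool × List Bool

/-- One step: it shortens the two remainders by one place in total. -/
def step (s : St) : St :=
  if s.1 = [] then s
  else if s.1.headD false = false then (s.1.tail, s.2.1, s.2.2.1, s.2.2.2)
  else if s.2.2.1.length ≤ s.1.length then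
    ((pz s.1 s.2.2.1 s.1.length).tail, ad s.2.1 s.2.2.2 (s.1.length - s.2.2.1.length),
      s.2.2.1, s.2.2.2)
  else
    ((pz s.2.2.1 s.1 s.2.2.1.length).tail, ad s.2.2.2 s.2.1 (s.2.2.1.length - s.1.length),
      s.1, s.2.1)

/-- The invariant. -/
structure Inv (n : ℕ) (x m : (ZMod 2)[X]) (s : St) : Prop where
  hd : ∃ B, s.2.2.1 = true :: B
  ha : m ∣ lv s.2.1 * x - bv s.1
  hb : m ∣ lv s.2.2.2 * x - bv s.2.2.1
  hg : ∀ d, d ∣ bv s.1 → d ∣ bv s.2.2.1 → d ∣ x ∧ d ∣ m
  lu : s.2.1.length + s.2.2.1.length ≤ n + 2
  lv' : s.2.2.2.length + s.1.length ≤ n + 1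
  lv2 : s.2.2.2.length ≤ n
  la : s.1.length ≤ n + 1

theorem bv_tail_pz (A B : List Bool) (h : B.length ≤ A.length) :
    bv (pz (true :: A) (true :: B) (true :: A).length).tail =
      bv (true :: A) + X ^ (A.length - B.length) * bv (true :: B) := by
  have := bv_pz (true :: A) (true :: B) (true :: A).length (by simpa using h) le_rfl
  rw [pz_cons] at this ⊢
  simpa [bv] using this

theorem step_inv {n : ℕ} {x m : (ZMod 2)[X]} {s : St} (h : Inv n x m s) :
    Inv n x m (step s) ∧ (s.1 ≠ [] → (step s).1.length + (step s).2.2.1.length + 1 =
      s.1.length + s.2.2.1.length) := by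
  obtain ⟨A, U, B, V⟩ := s
  obtain ⟨⟨B, rfl⟩, ha, hb, hg, lu, lv', lv2, la⟩ := h
  simp only [List.length_cons] at ha hb hg lu lv' lv2 la
  cases A with
  | nil => exact ⟨by simpa [step] using ⟨⟨B, rfl⟩, ha, hb, hg, lu, lv', lv2, la⟩, by simp⟩
  | cons a A =>
    simp only [List.length_cons] at lv' la
    cases a with
    | false =>
      have e : step (false :: A, U, true :: B, V) = (A, U, true :: B, V) := by simp [step]
      have e' : bv (false :: A) = bv A := by simp [bv]
      rw [e]
      rw [e'] at ha hg
      exact ⟨⟨⟨B, rfl⟩, ha, hb, hg, lu, by simp only; omega, lv2, by simp only; omega⟩,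
        fun _ => by simp only [List.length_cons]; omega⟩
    | true =>
      by_cases hl : B.length ≤ A.length
      · have e : step (true :: A, U, true :: B, V) =
            ((pz (true :: A) (true :: B) (true :: A).length).tail, ad U V (A.length - B.length),
              true :: B, V) := by simp [step, hl]
        have l1 : (pz (true :: A) (true :: B) (true :: A).length).tail.length = A.length := by
          rw [List.length_tail, pz_length _ _ _ le_rfl]; simp
        rw [e]
        refine ⟨⟨⟨B, rfl⟩, ?_, hb, ?_, ?_, ?_, lv2, ?_⟩, fun _ => ?_⟩
        · simp only [bv_tail_pz A B hl, lv_ad]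
          have := ha.add (hb.mul_left (X ^ (A.length - B.length)))
          convert this using 1; ring
        · intro d h1 h2
          simp only [bv_tail_pz A B hl] at h1 h2
          exact hg d ((dvd_add_left (h2.mul_left _)).1 h1) h2
        · simp only [ad_length, List.length_cons]; omega
        · simp only [l1]; omega
        · simp only [l1]; omega
        · simp only [l1]; simp only [List.length_cons]; omega
      · have hl' : A.length ≤ B.length := by omega
        have e : step (true :: A, U, true :: B, V) =
            ((pz (true :: B) (true :: A) (true :: B).length).tail, ad V U (B.length - A.length),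
              true :: A, U) := by simp [step, hl]
        have l1 : (pz (true :: B) (true :: A) (true :: B).length).tail.length = B.length := by
          rw [List.length_tail, pz_length _ _ _ le_rfl]; simp
        rw [e]
        refine ⟨⟨⟨A, rfl⟩, ?_, ha, ?_, ?_, ?_, ?_, ?_⟩, fun _ => ?_⟩
        · simp only [bv_tail_pz B A hl', lv_ad]
          have := hb.add (ha.mul_left (X ^ (B.length - A.length)))
          convert this using 1; ring
        · intro d h1 h2
          simp only [bv_tail_pz B A hl'] at h1 h2
          exact hg d h2 ((dvd_add_left (h2.mul_left _)).1 h1)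
        · simp only [ad_length, List.length_cons]; omega
        · simp only [l1]; omega
        · simp only; omega
        · simp only [l1]; omega
        · simp only [l1]; simp only [List.length_cons]; omega

theorem iter_inv {n : ℕ} {x m : (ZMod 2)[X]} {s : St} (h : Inv n x m s) (i : ℕ) :
    Inv n x m (step^[i] s) ∧ ((step^[i] s).1 = [] ∨
      (step^[i] s).1.length + (step^[i] s).2.2.1.length + i = s.1.length + s.2.2.1.length) := by
  induction i with
  | zero => exact ⟨h, Or.inr rfl⟩
  | succ i ih =>
    rw [Function.iterate_succ_apply']
    obtain ⟨h1, h2⟩ := step_inv ih.1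
    refine ⟨h1, ?_⟩
    by_cases e : (step^[i] s).1 = []
    · left
      rw [step, if_pos e]; exact e
    · right
      have := h2 e
      rcases ih.2 with h3 | h3
      · exact absurd h3 e
      · omega

/-- The start state for the input `l`. -/
def init (l : List Bool) : St :=
  ((l.take (l.length / 3)).reverse, [true],
    true :: ((l.drop (2 * (l.length / 3))).take (l.length / 3)).reverse, [])

/-- The final state for the input `l`. -/
def fin (l : List Bool) : St := step^[2 * (l.length / 3) + 1] (init l)

/-- The decision procedure. -/
def hardB (l : List Bool) : Bool :=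
  decide ((fin l).2.2.1.length = 1) &&
    decide (((List.range (l.length / 3)).map fun i =>
      (l.getD (l.length / 3 + i) false && (fin l).2.2.2.getD i false).toNat).sum % 2 = 1)

theorem block_eq (l : List Bool) (n o : ℕ) :
    poly (fun i : Fin n => l.getD (o + i) false) = lv ((l.drop o).take n) := by
  rw [← poly_getD n _ (by simp)]
  congr 1
  funext i
  have := i.2
  simp [List.getD_eq_getElem?_getD, this]

theorem init_inv (l : List Bool) (n : ℕ) (hn : l.length / 3 = n) :
    Inv n (poly fun i : Fin n => l.getD (0 * n + i) false)
      (X ^ n + poly fun i : Fin n => l.getD (2 * n + i) false) (init l) ∧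
    (init l).1.length = n ∧ (init l).2.2.1.length = n + 1 := by
  have h0 := block_eq l n (0 * n)
  have h2 := block_eq l n (2 * n)
  have l0 : (l.take n).length = n := by simp; omega
  have l2 : ((l.drop (2 * n)).take n).length = n := by simp; omega
  have e0 : bv (l.take n).reverse = poly fun i : Fin n => l.getD (0 * n + i) false := by
    rw [h0, bv_reverse]; simp
  have e2 : bv (true :: ((l.drop (2 * n)).take n).reverse) =
      X ^ n + poly fun i : Fin n => l.getD (2 * n + i) false := by
    rw [h2, bv, bv_reverse, List.length_reverse, l2]; simp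
  rw [init, hn]
  refine ⟨⟨⟨_, rfl⟩, ?_, ?_, ?_, ?_, ?_, ?_, ?_⟩, ?_, ?_⟩
  · simp only [e0]; simp [lv]
  · simp only [e2, lv, zero_mul, zero_sub, dvd_neg, dvd_refl]
  · intro d h1 h2
    simp only [e0, e2] at h1 h2
    exact ⟨h1, h2⟩
  all_goals simp only [List.length_cons, List.length_reverse, l0, l2, List.length_nil]
  all_goals omega

theorem count_eq (n : ℕ) (p : ℕ → Bool) :
    (Finset.univ.filter fun i : Fin n => p i = true).card =
      ((List.range n).map fun i => (p i).toNat).sum := by
  rw [Finset.card_filter, Fin.sum_univ_eq_sum_range (fun i => if p i = true then 1 else 0) n]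
  induction n with
  | zero => simp
  | succ n ih =>
    rw [Finset.sum_range_succ, ih, List.range_succ, List.map_append, List.sum_append]
    cases hp : p n <;> simp [hp]

theorem hardB_iff (l : List Bool) (n : ℕ) (hn : l.length / 3 = n) :
    hardB l = true ↔ Hard n fun p => l.getD (p.1 * n + p.2) false := by
  obtain ⟨h0, l1, l2⟩ := init_inv l n hn
  obtain ⟨hI, hE⟩ := iter_inv h0 (2 * n + 1)
  have ef : fin l = step^[2 * n + 1] (init l) := by rw [fin, hn]
  rw [← ef] at hI hE
  obtain ⟨⟨B, hB⟩, -, hb, hg, -, -, lv2, -⟩ := hI
  have hA : (fin l).1 = [] := by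
    rcases hE with h | h
    · exact h
    · rw [l1, l2, hB] at h; simp at h; omega
  set x := poly fun i : Fin n => l.getD (0 * n + i) false with hx
  set m := X ^ n + poly fun i : Fin n => l.getD (2 * n + i) false with hm
  have hdm : m.degree = n := by
    rw [hm, degree_add_eq_left_of_degree_lt, degree_X_pow]
    rw [degree_X_pow]; exact degree_poly _
  have hc := count_eq n fun i => l.getD (n + i) false && (fin l).2.2.2.getD i false
  have hH : (Hard n fun p => l.getD (p.1 * n + p.2) false) ↔ ∃ g : Fin n → Bool,
      m ∣ x * poly g - 1 ∧
        Odd (Finset.univ.filter fun i : Fin n => l.getD (n + i) false = true ∧ g i = true).card := by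
    simp only [Hard, hx, hm, Fin.val_zero, Fin.val_one, Fin.val_two, one_mul]
  rw [hH, hardB, hn, Bool.and_eq_true, decide_eq_true_eq, decide_eq_true_eq, ← hc, ← Nat.odd_iff]
  simp only [Bool.and_eq_true]
  have key : B = [] → m ∣ x * poly (fun i : Fin n => (fin l).2.2.2.getD i false) - 1 := by
    rintro rfl
    rw [poly_getD n _ lv2, mul_comm]
    rw [hB] at hb
    simpa [bv] using hb
  constructor
  · rintro ⟨h1, h2⟩
    refine ⟨_, key ?_, h2⟩
    rw [hB] at h1
    simpa using h1
  · rintro ⟨g, h1, h2⟩
    obtain ⟨d1, d2⟩ := hg (bv (true :: B)) (by rw [hA]; simp [bv]) (by rw [hB])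
    have hu : bv (true :: B) ∣ 1 := by
      have := (d1.mul_right (poly g)).sub (d2.trans h1)
      simpa using this
    have hB0 : B = [] := by
      have := degree_eq_zero_of_isUnit (isUnit_of_dvd_one hu)
      rw [degree_bv_true] at this
      have : B.length = 0 := by exact_mod_cast this
      simpa using this
    have h3 := key hB0
    have h4 : m ∣ poly g - poly (fun i : Fin n => (fin l).2.2.2.getD i false) := by
      have := (h3.mul_left (poly g)).sub
        (h1.mul_left (poly fun i : Fin n => (fin l).2.2.2.getD i false))
      have e : poly g * (x * poly (fun i : Fin n => (fin l).2.2.2.getD i false) - 1) -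
          poly (fun i : Fin n => (fin l).2.2.2.getD i false) * (x * poly g - 1) =
          -(poly g - poly (fun i : Fin n => (fin l).2.2.2.getD i false)) := by ring
      rw [e] at this
      exact (dvd_neg).1 this
    have h5 := eq_zero_of_dvd_of_degree_lt h4 (by
      rw [hdm]
      exact (degree_sub_le _ _).trans_lt (max_lt (degree_poly _) (degree_poly _)))
    have h6 := poly_inj (sub_eq_zero.1 h5)
    refine ⟨by rw [hB, hB0]; rfl, ?_⟩
    rw [h6] at h2
    exact h2

@[fun_prop] theorem pt_pz {α : Type} [Enc α] {f g : α → List Bool} {k : α → ℕ} (hf : PT f)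
    (hg : PT g) (hk : PT k) : PT fun a => pz (f a) (g a) (k a) := by
  unfold pz; fun_prop

@[fun_prop] theorem pt_ad {α : Type} [Enc α] {f g : α → List Bool} {k : α → ℕ} (hf : PT f)
    (hg : PT g) (hk : PT k) : PT fun a => ad (f a) (g a) (k a) := by
  unfold ad; fun_prop

theorem pt_step : PT step := by
  unfold step; fun_prop

theorem sz_bits (l : List Bool) : sz l = 3 * l.length := by
  induction l with
  | nil => rfl
  | cons a l ih => simp [ih]; omega

theorem pt_fin : PT fin := by
  refine PT.iterate (N := fun l : List Bool => 2 * (l.length / 3) + 1) (init := init) pt_step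
    (by fun_prop) (by unfold init; fun_prop) (fun t => 30 * t + 60) (by fun_prop) fun l i _ => ?_
  obtain ⟨h0, -, -⟩ := init_inv l _ rfl
  obtain ⟨⟨-, -, -, -, h1, h2, h3, h4⟩, -⟩ := iter_inv h0 i
  generalize step^[i] (init l) = s at h1 h2 h3 h4
  obtain ⟨A, U, B, V⟩ := s
  simp only [sz_pair, sz_bits] at h1 h2 h3 h4 ⊢
  omega

theorem pt_hardB : PT hardB := by
  have := pt_fin
  unfold hardB; fun_prop

theorem hardB_mem : hardB ∈ N68a2faeb.P := pt_hardB.isPolyTime_decide

end Pool.Agent.Work.MP_807b32_lc.InP
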