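import Pool.Agent.Work.MP_807b32_lc.InP.Alg
import Pool.Agent.Work.MP_807b32_lc.TS.RDefs

/-!
Programs for the language on inputs of length `N` give programs for the hard function.
-/

namespace Pool.Agent.Work.MP_807b32_lc.InP

open Pool.Agent.Work.MP_807b32_lc.TS

/-- The position of bit `p.2` of block `p.1`. -/
def pos (N : ℕ) (p : Fin 3 × Fin (N / 3)) : Fin N :=
  ⟨p.1 * (N / 3) + p.2, by
    have h1 := p.1.2
    have h2 := p.2.2
    have : (p.1 : ℕ) * (N / 3) ≤ 2 * (N / 3) := Nat.mul_le_mul_right _ (by omega)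
    omega⟩

theorem pos_inj (N : ℕ) : Function.Injective (pos N) := by
  rintro ⟨a, i⟩ ⟨b, j⟩ h
  have h1 : (a : ℕ) * (N / 3) + i = b * (N / 3) + j := congrArg Fin.val h
  have hi := i.2
  have hj := j.2
  have ha := a.2
  have hb := b.2
  have : (a : ℕ) = b ∧ (i : ℕ) = j := by
    generalize (a : ℕ) = a' at *
    generalize (b : ℕ) = b' at *
    interval_cases a' <;> interval_cases b' <;> omega
  exact Prod.ext (Fin.ext this.1) (Fin.ext this.2)

/-- An input of the hard function, padded by zeros. -/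
noncomputable def ext (N : ℕ) (w : Fin 3 × Fin (N / 3) → Bool) : Fin N → Bool :=
  Function.extend (pos N) w fun _ => false

theorem ext_pos (N : ℕ) (w : Fin 3 × Fin (N / 3) → Bool) (p : Fin 3 × Fin (N / 3)) :
    ext N w (pos N p) = w p := (pos_inj N).extend_apply _ _ _

theorem ext_out (N : ℕ) (w : Fin 3 × Fin (N / 3) → Bool) (j : Fin N) (h : ¬∃ p, pos N p = j) :
    ext N w j = false := Function.extend_apply' _ _ _ h

theorem hardB_ext (N : ℕ) (w : Fin 3 × Fin (N / 3) → Bool) :
    hardB (List.ofFn (ext N w)) = true ↔ Hard (N / 3) w := by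
  rw [hardB_iff _ (N / 3) (by simp)]
  have : (fun p : Fin 3 × Fin (N / 3) =>
      (List.ofFn (ext N w)).getD (p.1 * (N / 3) + p.2) false) = w := by
    funext p
    have h := (pos N p).2
    rw [← ext_pos N w p, List.getD_eq_getElem _ _ (by rw [List.length_ofFn]; exact h),
      List.getElem_ofFn]
    rfl
  rw [this]

/-- The nondeterministic program with the padding bits fixed to zero. -/
def resN {N : ℕ} {S : Type} (B : NBP (Fin N) S) : NBP (Fin 3 × Fin (N / 3)) S where
  start := B.start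
  accept := B.accept
  edge s o s' := match o with
    | none => B.edge s none s' ∨ ∃ j, (¬∃ p, pos N p = j) ∧ B.edge s (some (j, false)) s'
    | some (p, c) => B.edge s (some (pos N p, c)) s'

theorem walk_res {N : ℕ} {S : Type} {B : NBP (Fin N) S} {w : Fin 3 × Fin (N / 3) → Bool}
    {s t : S} {m : ℕ} (h : B.Walk (ext N w) s m t) : ∃ m' ≤ m, (resN B).Walk w s m' t := by
  induction h with
  | nil s => exact ⟨0, le_rfl, .nil s⟩
  | free e _ ih =>
    obtain ⟨m', h1, h2⟩ := ih
    exact ⟨m', h1, .free (Or.inl e) h2⟩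
  | test q e _ ih =>
    obtain ⟨m', h1, h2⟩ := ih
    by_cases hq : ∃ p, pos N p = q
    · obtain ⟨p, rfl⟩ := hq
      rw [ext_pos] at e
      exact ⟨m' + 1, by omega, .test p e h2⟩
    · rw [ext_out N w q hq] at e
      exact ⟨m', by omega, .free (Or.inr ⟨q, hq, e⟩) h2⟩

theorem walk_of_res {N : ℕ} {S : Type} {B : NBP (Fin N) S} {w : Fin 3 × Fin (N / 3) → Bool}
    {s t : S} {m : ℕ} (h : (resN B).Walk w s m t) : ∃ m', B.Walk (ext N w) s m' t := by
  induction h with
  | nil s => exact ⟨0, .nil s⟩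
  | free e _ ih =>
    obtain ⟨m', h2⟩ := ih
    rcases e with e | ⟨j, hj, e⟩
    · exact ⟨m', .free e h2⟩
    · rw [← ext_out N w j hj] at e
      exact ⟨m' + 1, .test j e h2⟩
  | test q e _ ih =>
    obtain ⟨m', h2⟩ := ih
    have e' : B.edge _ (some (pos N q, w q)) _ := e
    rw [← ext_pos N w q] at e'
    exact ⟨m' + 1, .test _ e' h2⟩

theorem computes_res {N : ℕ} {S : Type} {B : NBP (Fin N) S} {T T' : ℕ} (hT : T ≤ T')
    (h : B.ComputesIn (fun w => hardB (List.ofFn w) = true) T) :
    (resN B).ComputesIn (Hard (N / 3)) T' := by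
  intro w
  obtain ⟨h1, h2⟩ := h (ext N w)
  refine ⟨fun hw => ?_, fun m t ht hw => ?_⟩
  · obtain ⟨m, hm, t, ht, hw'⟩ := h1 ((hardB_ext N w).2 hw)
    obtain ⟨m', h3, h4⟩ := walk_res hw'
    exact ⟨m', by omega, t, ht, h4⟩
  · obtain ⟨m', h3⟩ := walk_of_res hw
    exact (hardB_ext N w).1 (h2 m' t ht h3)

open Classical in
/-- The deterministic program with the padding bits fixed to zero. -/
noncomputable def resD {N : ℕ} {S : Type} (p0 : Fin 3 × Fin (N / 3)) (B : DBP (Fin N) S) :
    DBP (Fin 3 × Fin (N / 3)) S where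
  start := B.start
  accept := B.accept
  var s := if h : ∃ p, pos N p = B.var s then h.choose else p0
  next s b := if ∃ p, pos N p = B.var s then B.next s b else B.next s false

theorem step_res {N : ℕ} {S : Type} (p0 : Fin 3 × Fin (N / 3)) (B : DBP (Fin N) S)
    (w : Fin 3 × Fin (N / 3) → Bool) : (resD p0 B).step w = B.step (ext N w) := by
  funext s
  by_cases h : ∃ p, pos N p = B.var s
  · simp only [DBP.step, resD, h, dif_pos, if_true]
    rw [← ext_pos N w h.choose, h.choose_spec]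
  · simp only [DBP.step, resD, h, if_false, ext_out N w _ h]

theorem rand_res {N : ℕ} {S ι : Type} [Fintype ι] (p0 : Fin 3 × Fin (N / 3)) {wt : ι → ℝ}
    {B : ι → DBP (Fin N) S} {T : ℕ} {γ : ℝ}
    (h : RandComputes wt B (fun w => hardB (List.ofFn w) = true) T γ) :
    RandComputes wt (fun i => resD p0 (B i)) (Hard (N / 3)) T γ := by
  obtain ⟨h1, h2, h3⟩ := h
  refine ⟨h1, h2, fun w => (h3 (ext N w)).trans_eq (Finset.sum_congr rfl fun i _ => ?_)⟩
  have e : (resD p0 (B i)).Accepts T w ↔ (B i).Accepts T (ext N w) := by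
    rw [DBP.Accepts, DBP.Accepts, step_res]; rfl
  have e2 : ((B i).Accepts T (ext N w) ↔ hardB (List.ofFn (ext N w)) = true) ↔
      ((resD p0 (B i)).Accepts T w ↔ Hard (N / 3) w) := by rw [e, hardB_ext]
  by_cases hq : (resD p0 (B i)).Accepts T w ↔ Hard (N / 3) w
  · rw [if_pos hq, if_pos (e2.2 hq)]
  · rw [if_neg hq, if_neg fun h => hq (e2.1 h)]

end Pool.Agent.Work.MP_807b32_lc.InP
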