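import Pool.Agent.Work.MP_807b32_lc.InP.Move
import Pool.Agent.Work.MP_807b32_lc.TS.NMain

/-!
The nondeterministic bound for a language in P.
-/

namespace Pool.Agent.Work.MP_807b32_lc.InP

open Pool.Agent.Work.MP_807b32_lc.TS

theorem nd_inP : ∃ L ∈ N68a2faeb.P, ∀ k : ℕ, ∃ c : ℕ, ∀ (n : ℕ) (S : Type) [Fintype S]
    (B : NBP (Fin n) S), B.ComputesIn (fun w => L (List.ofFn w) = true) (k * n) →
    n ≤ c * (Nat.clog 2 (Fintype.card S) + 1) := by
  refine ⟨hardB, hardB_mem, fun k => ?_⟩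
  obtain ⟨c, hc⟩ := nd_main (5 * k)
  refine ⟨3 * c + 2, fun n S _ B h => ?_⟩
  by_cases hn : n / 3 = 0
  · nlinarith [Nat.zero_le (Nat.clog 2 (Fintype.card S)), show n ≤ 2 by omega, Nat.zero_le c,
      Nat.zero_le (c * Nat.clog 2 (Fintype.card S))]
  · have h5 : k * n ≤ 5 * k * (n / 3) := by
      have : n ≤ 5 * (n / 3) := by omega
      nlinarith [Nat.mul_le_mul_left k this]
    have := hc (n / 3) S (resN B) (computes_res h5 h)
    have h3 : n ≤ 3 * (n / 3) + 2 := by omega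
    nlinarith [Nat.zero_le (Nat.clog 2 (Fintype.card S))]

end Pool.Agent.Work.MP_807b32_lc.InP
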