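import Pool.Agent.Work.MP_807b32_lc.InP.Move
import Pool.Agent.Work.MP_807b32_lc.Q.Main

/-!
The quantum bound for a language in P.
-/

namespace Pool.Agent.Work.MP_807b32_lc.InP

open Pool.Agent.Work.MP_807b32_lc.TS Pool.Agent.Work.MP_807b32_lc.Q

/-- Renaming of the variables of a quantum program. -/
def ren {V V' A W E : Type} (e : V → V') (P : QP V A W E) : QP V' A W E :=
  ⟨P.init, fun t w => e (P.var t w), P.amp, P.accept⟩

theorem state_ren {V V' A W E : Type} [Fintype W] [DecidableEq W] [Fintype E] (e : V → V')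
    (P : QP V A W E) (x : V' → A) (t : ℕ) : (ren e P).state x t = P.state (x ∘ e) t := by
  induction t with
  | zero => rfl
  | succ t ih => rw [QP.state, QP.state, ih]; rfl

theorem hardB_words (n b : ℕ) (x : Fin 3 × Fin n → Fin b → Bool) :
    hardB (List.ofFn fun i : Fin (3 * n * b) =>
      x (finProdFinEquiv.symm i.divNat) i.modNat) = true ↔ HardW n b x := by
  have hl : 3 * n * b / 3 = n * b := by rw [mul_assoc]; omega
  rw [hardB_iff _ (n * b) (by rw [List.length_ofFn, hl]), HardW]
  have : (fun p : Fin 3 × Fin (n * b) => (List.ofFn fun i : Fin (3 * n * b) =>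
      x (finProdFinEquiv.symm i.divNat) i.modNat).getD (p.1 * (n * b) + p.2) false) =
      fun v : Fin 3 × Fin (n * b) => x (v.1, v.2.divNat) v.2.modNat := by
    funext ⟨a, j⟩
    have ha := a.2
    have hj := j.2
    have hb : 0 < b := Nat.pos_of_ne_zero (by rintro rfl; simp at hj)
    have hn : 0 < n := Nat.pos_of_ne_zero (by rintro rfl; simp at hj)
    have h1 : (a : ℕ) * (n * b) ≤ 2 * (n * b) := Nat.mul_le_mul_right _ (by omega)
    have hlt : (a : ℕ) * (n * b) + j < 3 * n * b := by rw [mul_assoc]; omega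
    have hq : (j : ℕ) / b < n := Nat.div_lt_of_lt_mul (by rwa [mul_comm b n])
    have e1 : ((a : ℕ) * (n * b) + j) / b = a * n + j / b := by
      rw [← mul_assoc, add_comm, Nat.add_mul_div_right _ _ hb, add_comm]
    have e2 : ((a : ℕ) * (n * b) + j) % b = j % b := by
      rw [← mul_assoc, add_comm, Nat.add_mul_mod_self_right]
    rw [List.getD_eq_getElem _ _ (by rw [List.length_ofFn]; exact hlt), List.getElem_ofFn]
    congr 1
    · refine Prod.ext (Fin.ext ?_) (Fin.ext ?_)
      · show ((a : ℕ) * (n * b) + j) / b / n = a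
        rw [e1, add_comm, Nat.add_mul_div_right _ _ hn, Nat.div_eq_of_lt hq, zero_add]
      · show ((a : ℕ) * (n * b) + j) / b % n = j / b
        rw [e1, add_comm, Nat.add_mul_mod_self_right, Nat.mod_eq_of_lt hq]
    · exact Fin.ext e2
  rw [this]

theorem quantum_inP : ∃ L ∈ N68a2faeb.P, ∃ C : ℕ, ∀ (n b k D : ℕ), 2 ≤ D →
    ∀ (W E : Type) [Fintype W] [DecidableEq W] [Fintype E]
      (P : QP (Fin (3 * n)) (Fin b → Bool) W E) (T : ℕ),
      P.Valid → T ≤ k * n →
      P.Computes (fun x => L (List.ofFn fun i : Fin (3 * n * b) => x i.divNat i.modNat) = true)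
        T (1 / 2 + 1 / D) →
      n * b ≤ C ^ (Nat.sqrt k + 1) * (n + b + Nat.clog 2 (Fintype.card W) + Nat.clog 2 D) := by
  refine ⟨hardB, hardB_mem, 2 ^ 30, fun n b k D hD W E _ _ _ P T hP hT hf => ?_⟩
  refine Q.main n b k D hD W E (ren finProdFinEquiv.symm P) T
    ⟨hP.1, fun x t => hP.2 (x ∘ finProdFinEquiv.symm) t⟩ hT fun x => ?_
  have h := hf (x ∘ finProdFinEquiv.symm)
  have e : (ren finProdFinEquiv.symm P).prob x T = P.prob (x ∘ finProdFinEquiv.symm) T := by
    rw [QP.prob, QP.prob, state_ren]; rfl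
  rw [e, ← hardB_words n b x]
  exact h

end Pool.Agent.Work.MP_807b32_lc.InP
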