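import Pool.Agent.Work.MP_807b32_lc.InP.Move
import Pool.Agent.Work.MP_807b32_lc.TS.RMain

/-!
The randomized bound for a language in P.
-/

namespace Pool.Agent.Work.MP_807b32_lc.InP

open Pool.Agent.Work.MP_807b32_lc.TS

theorem rand_inP : ∃ L ∈ N68a2faeb.P, ∃ C : ℕ, ∀ (n k D : ℕ), 2 ≤ k → 2 ≤ D →
    ∀ (S ι : Type) [Fintype S] [Fintype ι] (wt : ι → ℝ) (B : ι → DBP (Fin n) S) (T : ℕ),
      T ≤ k * n → RandComputes wt B (fun w => L (List.ofFn w) = true) T (1 / 2 + 1 / D) →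
      n ≤ k ^ (C * k) * D * (Nat.clog 2 (Fintype.card S) + 1) := by
  refine ⟨hardB, hardB_mem, ?_⟩
  obtain ⟨C, hC⟩ := rand_main
  refine ⟨20 * C + 2, fun n k D hk hD S ι _ _ wt B T hT h => ?_⟩
  have hk0 : 0 < k := by omega
  by_cases hn : n / 3 = 0
  · have h1 : 1 ≤ k ^ ((20 * C + 2) * k) := Nat.one_le_pow _ _ hk0
    calc n ≤ 1 * D * 1 := by omega
      _ ≤ _ := Nat.mul_le_mul (Nat.mul_le_mul_right _ h1) (by omega)
  · have h5 : n ≤ 5 * (n / 3) := by omega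
    have hT' : T ≤ 5 * k * (n / 3) := by nlinarith [Nat.mul_le_mul_left k h5]
    have p0 : Fin 3 × Fin (n / 3) := (0, ⟨0, by omega⟩)
    have hr : RandComputes wt (fun i => resD p0 (B i)) (Hard (n / 3)) T (1 / 2 + 1 / D) :=
      rand_res p0 h
    have h1 := hC (n / 3) (5 * k) D (by omega) hD S ι wt _ T hT' hr
    have h8 : 8 ≤ k ^ 3 := by
      have h := Nat.pow_le_pow_left hk 3
      norm_num at h
      exact h
    have h2 : 5 * k ≤ k ^ 4 := by
      rw [pow_succ]; exact Nat.mul_le_mul_right _ (by omega)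
    have h3 : 5 * (5 * k) ^ (C * (5 * k)) ≤ k ^ ((20 * C + 2) * k) := by
      calc 5 * (5 * k) ^ (C * (5 * k)) ≤ k ^ 3 * (k ^ 4) ^ (C * (5 * k)) :=
            Nat.mul_le_mul (by omega) (Nat.pow_le_pow_left h2 _)
        _ = k ^ (3 + 4 * (C * (5 * k))) := by rw [← pow_mul, ← pow_add]
        _ ≤ _ := Nat.pow_le_pow_right hk0 (by nlinarith)
    calc n ≤ 5 * (n / 3) := h5
      _ ≤ 5 * ((5 * k) ^ (C * (5 * k)) * D * (Nat.clog 2 (Fintype.card S) + 1)) :=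
          Nat.mul_le_mul_left _ h1
      _ = 5 * (5 * k) ^ (C * (5 * k)) * D * (Nat.clog 2 (Fintype.card S) + 1) := by ring
      _ ≤ _ := Nat.mul_le_mul_right _ (Nat.mul_le_mul_right _ h3)

end Pool.Agent.Work.MP_807b32_lc.InP
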